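import Pool.Agent.W422.PI.Abs
import Pool.Agent.H552R3.SymPred
import Pool.Agent.H552R3.Tsen.Tower

set_option autoImplicit false

/-! Project PI: the Brauer group. -/

namespace Pool.Agent.W422.PI

open Pool.Agent.Helper18.Br Pool.Agent.H552R3.SymBr Pool.Agent.H552R3.Tsen
  Pool.Agent.Helper346.Bra

universe u

variable {K : Type u} [Field K] {n : ℕ} {ζ : K}

/-- the symbol as a bilinear map -/
noncomputable def symB (hn : 0 < n) (hζ : IsPrimitiveRoot ζ n) :
    Additive Kˣ →+ Additive Kˣ →+ Additive (BrauerGroup.{u, u} K) :=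
  AddMonoidHom.mk' (fun a => MonoidHom.toAdditive (symR hn hζ (Additive.toMul a))) (by
    intro a b
    ext c
    exact symCl_mul_left hn hζ (Additive.toMul a) (Additive.toMul b) (Additive.toMul c))

lemma symB_apply (hn : 0 < n) (hζ : IsPrimitiveRoot ζ n) (a b : Additive Kˣ) :
    symB hn hζ a b = Additive.ofMul (symCl hn hζ (Additive.toMul a) (Additive.toMul b)) := rfl

lemma symCl_pow_right (hn : 0 < n) (hζ : IsPrimitiveRoot ζ n) (a c : Kˣ) :
    symCl hn hζ a (c ^ n) = 1 := by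
  have h := symCl_scale hn hζ a 1 c
  rw [one_mul, symCl_one_right] at h
  exact h.symm

lemma symB_alt (hn : 0 < n) (hζ : IsPrimitiveRoot ζ n) (h1 : ∃ c : K, c ^ n = -1)
    (a : Additive Kˣ) : symB hn hζ a a = 0 := by
  rw [symB_apply]
  rcases symCl_diag hn hζ (Additive.toMul a) with h | h
  · rw [h]; rfl
  · obtain ⟨c, hc⟩ := h1
    have hc0 : c ≠ 0 := by
      rintro rfl
      rw [zero_pow hn.ne'] at hc
      simp at hc
    have h2 : (-1 : Kˣ) = (Units.mk0 c hc0) ^ n := by
      ext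
      simp [hc]
    rw [h, h2, symCl_pow_right]
    rfl

lemma symB_tors (hn : 0 < n) (hζ : IsPrimitiveRoot ζ n) (a b : Additive Kˣ) :
    (n : ℤ) • symB hn hζ a b = 0 := by
  rw [← map_zsmul, natCast_zsmul, symB_apply]
  show Additive.ofMul (symCl hn hζ _ ((Additive.toMul b) ^ n)) = 0
  rw [symCl_pow_right]
  rfl

lemma hasRep_one : HasRep (1 : BrauerGroup.{u, u} K) 1 :=
  ⟨K, inferInstance, inferInstance, inferInstance, inferInstance, inferInstance, rfl, by
    rw [Module.finrank_self, one_pow]⟩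

lemma hasRep_prod (hn : 0 < n) (hζ : IsPrimitiveRoot ζ n) (m : ℕ) (u v : Fin m → Kˣ) :
    HasRep (∏ k, symCl hn hζ (u k) (v k)) (n ^ m) := by
  induction m with
  | zero => simpa using hasRep_one (K := K)
  | succ m ih =>
    rw [Fin.prod_univ_succ, pow_succ']
    exact (hasRep_symCl hn hζ (u 0) (v 0)).mul (ih _ _)

lemma toAdd_closure (hn : 0 < n) (hζ : IsPrimitiveRoot ζ n) (G : Subgroup Kˣ) :
    Subgroup.toAddSubgroup (Subgroup.closure (symSet hn hζ G)) =
      AddSubgroup.closure (vals (symB hn hζ) (Subgroup.toAddSubgroup G)) := by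
  rw [Subgroup.toAddSubgroup_closure]
  congr 1

lemma toAdd_big (hn : 0 < n) (hζ : IsPrimitiveRoot ζ n) (H : Subgroup Kˣ)
    (V : Subgroup (BrauerGroup.{u, u} K)) {ι : Type} (x : ι → Kˣ) (α : BrauerGroup.{u, u} K)
    (hα : α ∈ V ⊔ Subgroup.closure (symSet hn hζ (H ⊔ Subgroup.closure (Set.range x)))) :
    Additive.ofMul α ∈ Subgroup.toAddSubgroup V ⊔ AddSubgroup.closure (vals (symB hn hζ)
      (Subgroup.toAddSubgroup H ⊔ AddSubgroup.closure
        (Set.range fun i => Additive.ofMul (x i)))) := by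
  have h1 : Additive.ofMul α ∈ Subgroup.toAddSubgroup
      (V ⊔ Subgroup.closure (symSet hn hζ (H ⊔ Subgroup.closure (Set.range x)))) := hα
  rw [map_sup, toAdd_closure, map_sup, Subgroup.toAddSubgroup_closure] at h1
  exact h1

/-- **Products with abelian varieties**: `g` symbols suffice. -/
theorem pencilBr (hn : 0 < n) (hζ : IsPrimitiveRoot ζ n) (h1 : ∃ c : K, c ^ n = -1) (g : ℕ)
    (hp : ∀ p : ℕ, p.Prime → p ∣ n → g < p) (H : Subgroup Kˣ) (V : Subgroup (BrauerGroup.{u, u} K))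
    (hHV : ∀ a ∈ H, ∀ b ∈ H, symCl hn hζ a b ∈ V) (N : ℕ) (hN : 0 < N)
    (hV : ∀ β ∈ V, IndDvd β N) (e f : Fin g → Kˣ)
    (hrel : ∃ a b : Fin g → Kˣ, (∀ i, a i ∈ H) ∧ (∀ i, b i ∈ H) ∧ ∃ v ∈ V,
      ∏ i, symCl hn hζ (e i) (f i) =
        (∏ i, symCl hn hζ (e i) (a i) * symCl hn hζ (f i) (b i)) * v)
    (α : BrauerGroup.{u, u} K)
    (hα : α ∈ V ⊔ Subgroup.closure (symSet hn hζ
      (H ⊔ Subgroup.closure (Set.range e ∪ Set.range f)))) :
    IndDvd α (n ^ g * N) := by
  have hran : Set.range e ∪ Set.range f = Set.range (Sum.elim e f) := by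
    rw [Set.Sum.elim_range]
  rw [hran] at hα
  obtain ⟨a, b, ha, hb, v, hv, hrel⟩ := hrel
  obtain ⟨u, w, γ, hγ, hα'⟩ := pencil (symB hn hζ) (symB_alt hn hζ h1) n hn (symB_tors hn hζ) hp
    (Subgroup.toAddSubgroup H) (Subgroup.toAddSubgroup V)
    (fun a ha b hb => hHV _ ha _ hb) (fun i => Additive.ofMul (Sum.elim e f i))
    ⟨fun i => Additive.ofMul (Sum.elim a b i), by rintro (i | i) <;> [exact ha i; exact hb i], by
      have h2 : ∑ k, symB hn hζ (Additive.ofMul (Sum.elim e f (Sum.inl k)))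
          (Additive.ofMul (Sum.elim e f (Sum.inr k))) -
          ∑ i, symB hn hζ (Additive.ofMul (Sum.elim e f i)) (Additive.ofMul (Sum.elim a b i)) =
          Additive.ofMul v := by
        have h3 : ∑ k, symB hn hζ (Additive.ofMul (Sum.elim e f (Sum.inl k)))
            (Additive.ofMul (Sum.elim e f (Sum.inr k))) =
            Additive.ofMul (∏ i, symCl hn hζ (e i) (f i)) := by
          rw [ofMul_prod]
          rfl
        have h4 : ∑ i, symB hn hζ (Additive.ofMul (Sum.elim e f i))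
            (Additive.ofMul (Sum.elim a b i)) =
            Additive.ofMul (∏ i, symCl hn hζ (e i) (a i) * symCl hn hζ (f i) (b i)) := by
          rw [ofMul_prod, Fintype.sum_sum_type, ← Finset.sum_add_distrib]
          rfl
        rw [h3, h4, hrel, ofMul_mul, add_sub_cancel_left]
      rw [h2]
      exact hv⟩ (Additive.ofMul α) (toAdd_big hn hζ H V _ α hα)
  have h5 : α = (∏ k, symCl hn hζ (Additive.toMul (u k)) (Additive.toMul (w k))) *
      Additive.toMul γ := by
    have h6 := congrArg Additive.toMul hα'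
    rw [toMul_ofMul, toMul_add, toMul_sum] at h6
    exact h6
  rw [h5]
  exact ((hasRep_prod hn hζ g _ _).mul ((hV _ hγ).hasRep hN)).indDvd

/-- **Real multiplication.** -/
theorem realBr (p : ℕ) [Fact p.Prime] {ζ : K} (hζ : IsPrimitiveRoot ζ p)
    (h1 : ∃ c : K, c ^ p = -1)
    (R : Type) [CommRing R] [Algebra (ZMod p) R] [IsReduced R] (g : ℕ) (hg : 0 < g)
    (r : Module.Basis (Fin g) (ZMod p) R) (l : R →ₗ[ZMod p] ZMod p)
    (hl : ∀ x : R, (∀ y : R, l (x * y) = 0) → x = 0) (e f : Fin g → Kˣ)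
    (hrel : ∀ a : R, ∏ i, ∏ j,
      symCl (Fact.out : p.Prime).pos hζ (e i) (f j) ^ (l (a * r i * r j)).val = 1) :
    (∀ α ∈ Subgroup.closure (symSet (Fact.out : p.Prime).pos hζ
      (Subgroup.closure (Set.range e ∪ Set.range f))), IndDvd α (p ^ (g - 1))) ∧
    (∀ (H : Subgroup Kˣ) (V : Subgroup (BrauerGroup.{u, u} K)),
      (∀ a ∈ H, ∀ b ∈ H, symCl (Fact.out : p.Prime).pos hζ a b ∈ V) → ∀ N : ℕ, 0 < N →
      (∀ β ∈ V, IndDvd β N) →
      ∀ α ∈ V ⊔ Subgroup.closure (symSet (Fact.out : p.Prime).pos hζ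
        (H ⊔ Subgroup.closure (Set.range e ∪ Set.range f))), IndDvd α (p ^ g * N)) := by
  have hran : Set.range e ∪ Set.range f = Set.range (Sum.elim e f) := by
    rw [Set.Sum.elim_range]
  rw [hran]
  have hn : 0 < p := (Fact.out : p.Prime).pos
  obtain ⟨hA, hB⟩ := realmult (symB hn hζ) p R g hg r l hl (symB_alt hn hζ h1) (symB_tors hn hζ)
    (fun i => Additive.ofMul (Sum.elim e f i)) (by
      intro a
      have h2 := congrArg Additive.ofMul (hrel a)
      rw [ofMul_prod] at h2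
      rw [ofMul_one] at h2
      rw [← h2]
      refine Finset.sum_congr rfl fun i _ => ?_
      rw [ofMul_prod]
      refine Finset.sum_congr rfl fun j _ => ?_
      rw [natCast_zsmul]
      rfl)
  constructor
  · intro α hα
    have h3 : Additive.ofMul α ∈ AddSubgroup.closure (vals (symB hn hζ)
        (AddSubgroup.closure (Set.range fun i => Additive.ofMul (Sum.elim e f i)))) := by
      have h4 := toAdd_big hn hζ ⊥ ⊥ (Sum.elim e f) α (by rw [bot_sup_eq, bot_sup_eq]; exact hα)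
      rw [map_bot, map_bot, bot_sup_eq, bot_sup_eq] at h4
      exact h4
    obtain ⟨m, u, v, hm, h5⟩ := hA _ h3
    have h6 : α = ∏ k, symCl hn hζ (Additive.toMul (u k)) (Additive.toMul (v k)) := by
      have h7 := congrArg Additive.toMul h5
      rw [toMul_ofMul, toMul_sum] at h7
      exact h7
    rw [h6]
    intro D _ _ _ _ hD
    exact ((hasRep_prod hn hζ m _ _).indDvd D hD).trans (pow_dvd_pow p (by omega))
  · intro H V hHV N hN hV α hα
    obtain ⟨u, w, γ, hγ, hα'⟩ := hB (Subgroup.toAddSubgroup H) (Subgroup.toAddSubgroup V)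
      (fun a ha b hb => hHV _ ha _ hb) (Additive.ofMul α) (toAdd_big hn hζ H V _ α hα)
    have h5 : α = (∏ k, symCl hn hζ (Additive.toMul (u k)) (Additive.toMul (w k))) *
        Additive.toMul γ := by
      have h6 := congrArg Additive.toMul hα'
      rw [toMul_ofMul, toMul_add, toMul_sum] at h6
      exact h6
    rw [h5]
    exact ((hasRep_prod hn hζ g _ _).mul ((hV _ hγ).hasRep hN)).indDvd

end Pool.Agent.W422.PI
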