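import Mathlib

set_option autoImplicit false

/-! Project PI: normal forms of alternating matrices (statements). -/

namespace Pool.Agent.W422.PI

open Matrix

/-- alternating matrices -/
def Alt {ι R : Type*} [CommRing R] (A : Matrix ι ι R) : Prop := Aᵀ = -A ∧ ∀ i, A i i = 0

/-- the standard symplectic matrix -/
def Jm (r : ℕ) (R : Type*) [CommRing R] : Matrix (Fin r ⊕ Fin r) (Fin r ⊕ Fin r) R :=
  fromBlocks 0 1 (-1) 0

/-- stable range one -/
def SR (R : Type*) [CommRing R] : Prop :=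
  ∀ a b : R, IsCoprime a b → ∃ c : R, IsUnit (a + c * b)

/-- NFU: unimodular alternating matrices over a ring of stable range one -/
def NFU : Prop := ∀ (R : Type) [CommRing R], SR R → ∀ (g : ℕ)
    (A : Matrix (Fin g ⊕ Fin g) (Fin g ⊕ Fin g) R), Alt A → IsUnit A.det →
    ∃ Q : Matrix (Fin g ⊕ Fin g) (Fin g ⊕ Fin g) R, IsUnit Q.det ∧ A = Q * Jm g R * Qᵀ

/-- NFK: alternating matrices over a field -/
def NFK : Prop := ∀ (K : Type) [Field K] (ι : Type) [Fintype ι] [DecidableEq ι]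
    (A : Matrix ι ι K), Alt A →
    ∃ (r : ℕ) (Q : Matrix ι (Fin r ⊕ Fin r) K), A.rank = 2 * r ∧ A = Q * Jm r K * Qᵀ

/-- SRZ: residue rings of `ℤ` have stable range one -/
def SRZ : Prop := ∀ (n : ℕ), 0 < n → SR (ZMod n)

/-- SQ: the determinant of an alternating matrix of even size over an integrally closed domain is a
square -/
def SQ : Prop := ∀ (R : Type) [CommRing R] [IsDomain R] [IsIntegrallyClosed R] (g : ℕ)
    (A : Matrix (Fin g ⊕ Fin g) (Fin g ⊕ Fin g) R), Alt A → IsSquare A.det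

/-- EU: a unimodular member in the pencil `A + u J` -/
def EU : Prop := ∀ (g n : ℕ), 0 < n → (∀ p : ℕ, p.Prime → p ∣ n → g < p) →
    ∀ A : Matrix (Fin g ⊕ Fin g) (Fin g ⊕ Fin g) ℤ, Alt A →
    ∃ u : ℤ, IsUnit ((A + u • Jm g ℤ).map (Int.castRingHom (ZMod n))).det

/-- The alternating matrix `a ↦ (λ(a r_i r_j))` in the off-diagonal blocks. -/
def Em {R : Type*} [CommRing R] {p : ℕ} [Algebra (ZMod p) R] {g : ℕ} (r : Fin g → R)
    (l : R →ₗ[ZMod p] ZMod p) (a : R) : Matrix (Fin g ⊕ Fin g) (Fin g ⊕ Fin g) (ZMod p) :=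
  fromBlocks 0 (Matrix.of fun i j => l (a * r i * r j)) (-(Matrix.of fun i j => l (a * r i * r j))) 0

/-- CW: a degenerate and a nondegenerate member in the family `A + E(a)` -/
def CW : Prop := ∀ (p : ℕ) [Fact p.Prime] (R : Type) [CommRing R] [Algebra (ZMod p) R]
    [IsReduced R] (g : ℕ) (_ : 0 < g) (r : Module.Basis (Fin g) (ZMod p) R) (l : R →ₗ[ZMod p] ZMod p)
    (_ : ∀ x : R, (∀ y : R, l (x * y) = 0) → x = 0)
    (A : Matrix (Fin g ⊕ Fin g) (Fin g ⊕ Fin g) (ZMod p)), Alt A →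
    (∃ a : R, (A + Em r l a).det = 0) ∧ (∃ a : R, (A + Em r l a).det ≠ 0)

end Pool.Agent.W422.PI
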