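import Pool.Agent.W422.PI.Bil2
import Pool.Agent.W249.PI.NFU
import Pool.Agent.W790.PI.NFK
import Pool.Agent.W918.PI.SQ
import Pool.Agent.W338.PI.EU
import Pool.Agent.W405.PI.Srz
import Pool.Agent.W978.PI.CW

set_option autoImplicit false

/-! Project PI: the theorems for alternating bilinear maps. -/

namespace Pool.Agent.W422.PI

open Matrix

variable {M B : Type*} [AddCommGroup M] [AddCommGroup B] (β : M →+ M →+ B)

lemma sq_all : SQ := Pool.Agent.W918.PI.main Pool.Agent.W790.PI.main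

lemma alt_sub {ι R : Type*} [CommRing R] (C : Matrix ι ι R) : Alt (C - Cᵀ) := by
  refine ⟨?_, fun i => by simp⟩
  rw [Matrix.transpose_sub, Matrix.transpose_transpose, neg_sub]

lemma alt_map {ι R S : Type*} [CommRing R] [CommRing S] (φ : R →+* S) (A : Matrix ι ι R)
    (h : Alt A) : Alt (A.map φ) := by
  refine ⟨?_, fun i => by simp [h.2 i]⟩
  rw [← Matrix.transpose_map, h.1]
  ext i j
  simp

lemma Dm_alt (r : ℕ) : Dm r - (Dm r)ᵀ = Jm r ℤ := by
  unfold Dm Jm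
  ext i j
  rcases i with i | i <;> rcases j with j | j <;> by_cases h : i = j <;> simp [h, Ne.symm]

lemma alt_Jm (r : ℕ) (R : Type*) [CommRing R] : Alt (Jm r R) := by
  refine ⟨?_, ?_⟩
  · unfold Jm
    ext i j
    rcases i with i | i <;> rcases j with j | j <;> by_cases h : i = j <;> simp [h, Ne.symm]
  · rintro (i | i) <;> simp [Jm]

lemma alt_add {ι R : Type*} [CommRing R] {A A' : Matrix ι ι R} (h : Alt A) (h' : Alt A') :
    Alt (A + A') := by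
  refine ⟨?_, fun i => by rw [Matrix.add_apply, h.2, h'.2, add_zero]⟩
  rw [Matrix.transpose_add, h.1, h'.1, neg_add]

lemma alt_smul {ι R : Type*} [CommRing R] (c : ℤ) {A : Matrix ι ι R} (h : Alt A) :
    Alt (c • A) := by
  refine ⟨?_, fun i => by rw [Matrix.smul_apply, h.2, smul_zero]⟩
  rw [Matrix.transpose_smul, h.1, smul_neg]

/-- a unimodular form modulo `n` gives `g` symbols -/
lemma unimod' {g : ℕ} (halt : ∀ x, β x x = 0) (n : ℕ) (hn0 : 0 < n)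
    (hn : ∀ x y, (n : ℤ) • β x y = 0)
    (H : AddSubgroup M) (V : AddSubgroup B) (hHV : ∀ a ∈ H, ∀ b ∈ H, β a b ∈ V)
    (x : Fin g ⊕ Fin g → M) (C : Matrix (Fin g ⊕ Fin g) (Fin g ⊕ Fin g) ℤ)
    (h : Fin g ⊕ Fin g → M) (hh : ∀ i, h i ∈ H) (γ : B) (hγ : γ ∈ V)
    (hA : IsUnit ((C - Cᵀ).map (Int.castRingHom (ZMod n))).det) :
    ∃ (u v : Fin g → M) (γ' : B), γ' ∈ V ∧
      T β C x x + ∑ i, β (x i) (h i) + γ = ∑ k, β (u k) (v k) + γ' := by
  obtain ⟨Q, hQ, hAQ⟩ := Pool.Agent.W249.PI.main (ZMod n) (Pool.Agent.W405.PI.main n hn0) g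
    ((C - Cᵀ).map (Int.castRingHom (ZMod n))) (alt_map _ _ (alt_sub C)) hA
  exact unimod β halt n hn H V hHV x C h hh γ hγ Q hQ hAQ

lemma T_zsmul {ι κ : Type*} [Fintype ι] [Fintype κ] (c : ℤ) (C : Matrix ι κ ℤ) (x : ι → M)
    (y : κ → M) : T β (c • C) x y = c • T β C x y := by
  unfold T
  simp only [Matrix.smul_apply, smul_eq_mul, Finset.smul_sum, mul_smul]

/-- **Products with abelian varieties.** -/
theorem pencil {g : ℕ} (halt : ∀ x, β x x = 0) (n : ℕ) (hn0 : 0 < n)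
    (hn : ∀ x y, (n : ℤ) • β x y = 0) (hp : ∀ p : ℕ, p.Prime → p ∣ n → g < p)
    (H : AddSubgroup M) (V : AddSubgroup B) (hHV : ∀ a ∈ H, ∀ b ∈ H, β a b ∈ V)
    (x : Fin g ⊕ Fin g → M)
    (hrel : ∃ h : Fin g ⊕ Fin g → M, (∀ i, h i ∈ H) ∧
      ∑ k, β (x (Sum.inl k)) (x (Sum.inr k)) - ∑ i, β (x i) (h i) ∈ V)
    (α : B) (hα : α ∈ V ⊔ AddSubgroup.closure (vals β (H ⊔ AddSubgroup.closure (Set.range x)))) :
    ∃ (u v : Fin g → M) (γ : B), γ ∈ V ∧ α = ∑ k, β (u k) (v k) + γ := by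
  obtain ⟨C, h, γ, hh, hγ, rfl⟩ := form_of_mem β halt H V hHV x α hα
  obtain ⟨h0, hh0, hV0⟩ := hrel
  obtain ⟨c, hc⟩ := Pool.Agent.W338.PI.main sq_all g n hn0 hp (C - Cᵀ) (alt_sub C)
  have h1 : C - Cᵀ + c • Jm g ℤ = (C + c • Dm g) - (C + c • Dm g)ᵀ := by
    rw [← Dm_alt, Matrix.transpose_add, Matrix.transpose_smul, smul_sub]
    abel
  rw [h1] at hc
  obtain ⟨u, v, γ', hγ', h2⟩ := unimod' β halt n hn0 hn H V hHV x (C + c • Dm g)
    (fun i => h i - c • h0 i) (fun i => H.sub_mem (hh i) (H.zsmul_mem (hh0 i) c))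
    (γ - c • (∑ k, β (x (Sum.inl k)) (x (Sum.inr k)) - ∑ i, β (x i) (h0 i)))
    (V.sub_mem hγ (V.zsmul_mem hV0 c)) hc
  refine ⟨u, v, γ', hγ', ?_⟩
  rw [← h2, T_add, T_zsmul, T_Dm]
  simp only [map_sub, map_zsmul, Finset.sum_sub_distrib, ← Finset.smul_sum, smul_sub]
  abel

/-- a degenerate form modulo `p` gives fewer symbols -/
lemma degen {g : ℕ} (halt : ∀ x, β x x = 0) (p : ℕ) [Fact p.Prime]
    (hn : ∀ x y, (p : ℤ) • β x y = 0) (x : Fin g ⊕ Fin g → M)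
    (C : Matrix (Fin g ⊕ Fin g) (Fin g ⊕ Fin g) ℤ)
    (hA : ((C - Cᵀ).map (Int.castRingHom (ZMod p))).det = 0) :
    ∃ (r : ℕ) (u v : Fin r → M), r < g ∧ T β C x x = ∑ k, β (u k) (v k) := by
  obtain ⟨r, Q, hr, hAQ⟩ := Pool.Agent.W790.PI.main (ZMod p) (Fin g ⊕ Fin g)
    ((C - Cᵀ).map (Int.castRingHom (ZMod p))) (alt_map _ _ (alt_sub C))
  obtain ⟨P, rfl⟩ := exists_lift p Q
  refine ⟨r, _, _, ?_, T_normal β halt p hn C r P hAQ x⟩
  have h1 : ((C - Cᵀ).map (Int.castRingHom (ZMod p))).rank < Fintype.card (Fin g ⊕ Fin g) := by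
    refine lt_of_le_of_ne (Matrix.rank_le_card_height _) fun h => ?_
    have h2 : IsUnit ((C - Cᵀ).map (Int.castRingHom (ZMod p))) := by
      rw [← Matrix.linearIndependent_rows_iff_isUnit, linearIndependent_iff_card_eq_finrank_span,
        ← h, Matrix.rank_eq_finrank_span_row]
      rfl
    exact ((Matrix.isUnit_iff_isUnit_det _).1 h2).ne_zero hA
  rw [hr, Fintype.card_sum, Fintype.card_fin] at h1
  omega

/-- the integral matrix representing the relation of `a` -/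
noncomputable def Lm {R : Type*} [CommRing R] {p : ℕ} [Algebra (ZMod p) R] {g : ℕ} (r : Fin g → R)
    (l : R →ₗ[ZMod p] ZMod p) (a : R) : Matrix (Fin g ⊕ Fin g) (Fin g ⊕ Fin g) ℤ :=
  fromBlocks 0 (Matrix.of fun i j => ((l (a * r i * r j)).val : ℤ)) 0 0

lemma Lm_alt {R : Type*} [CommRing R] {p : ℕ} [Fact p.Prime] [Algebra (ZMod p) R] {g : ℕ}
    (r : Fin g → R) (l : R →ₗ[ZMod p] ZMod p) (a : R) :
    (Lm r l a - (Lm r l a)ᵀ).map (Int.castRingHom (ZMod p)) = Em r l a := by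
  unfold Lm Em
  ext i j
  rcases i with i | i <;> rcases j with j | j <;> simp [mul_right_comm]

lemma T_Lm {R : Type*} [CommRing R] {p : ℕ} [Fact p.Prime] [Algebra (ZMod p) R] {g : ℕ}
    (r : Fin g → R) (l : R →ₗ[ZMod p] ZMod p) (a : R) (x : Fin g ⊕ Fin g → M) :
    T β (Lm r l a) x x =
      ∑ i, ∑ j, ((l (a * r i * r j)).val : ℤ) • β (x (Sum.inl i)) (x (Sum.inr j)) := by
  unfold T Lm
  rw [Fintype.sum_sum_type]
  simp only [Fintype.sum_sum_type, fromBlocks_apply₁₁, fromBlocks_apply₁₂, fromBlocks_apply₂₁,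
    fromBlocks_apply₂₂, Matrix.zero_apply, zero_smul, Finset.sum_const_zero, zero_add, add_zero,
    Matrix.of_apply]

/-- **Real multiplication.** -/
theorem realmult (p : ℕ) [Fact p.Prime] (R : Type) [CommRing R] [Algebra (ZMod p) R]
    [IsReduced R] (g : ℕ) (hg : 0 < g) (r : Module.Basis (Fin g) (ZMod p) R)
    (l : R →ₗ[ZMod p] ZMod p) (hl : ∀ x : R, (∀ y : R, l (x * y) = 0) → x = 0)
    (halt : ∀ x, β x x = 0) (hn : ∀ x y, (p : ℤ) • β x y = 0)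
    (x : Fin g ⊕ Fin g → M)
    (hrel : ∀ a : R, ∑ i, ∑ j, ((l (a * r i * r j)).val : ℤ) •
      β (x (Sum.inl i)) (x (Sum.inr j)) = 0) :
    (∀ α ∈ AddSubgroup.closure (vals β (AddSubgroup.closure (Set.range x))),
      ∃ (m : ℕ) (u v : Fin m → M), m < g ∧ α = ∑ k, β (u k) (v k)) ∧
    (∀ (H : AddSubgroup M) (V : AddSubgroup B), (∀ a ∈ H, ∀ b ∈ H, β a b ∈ V) →
      ∀ α ∈ V ⊔ AddSubgroup.closure (vals β (H ⊔ AddSubgroup.closure (Set.range x))),
      ∃ (u v : Fin g → M) (γ : B), γ ∈ V ∧ α = ∑ k, β (u k) (v k) + γ) := by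
  have hcw := fun (C : Matrix (Fin g ⊕ Fin g) (Fin g ⊕ Fin g) ℤ) =>
    Pool.Agent.W978.PI.main sq_all p R g hg r l hl
      ((C - Cᵀ).map (Int.castRingHom (ZMod p))) (alt_map _ _ (alt_sub C))
  have hsum : ∀ (C : Matrix (Fin g ⊕ Fin g) (Fin g ⊕ Fin g) ℤ) (a : R),
      (C - Cᵀ).map (Int.castRingHom (ZMod p)) + Em r l a =
      ((C + Lm r l a) - (C + Lm r l a)ᵀ).map (Int.castRingHom (ZMod p)) := by
    intro C a
    rw [← Lm_alt]
    ext i j
    simp only [Matrix.map_apply, Matrix.sub_apply, Matrix.add_apply, Matrix.transpose_apply,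
      eq_intCast]
    push_cast
    ring
  have hT : ∀ (C : Matrix (Fin g ⊕ Fin g) (Fin g ⊕ Fin g) ℤ) (a : R),
      T β (C + Lm r l a) x x = T β C x x := by
    intro C a
    rw [T_add, T_Lm, hrel, add_zero]
  constructor
  · intro α hα
    have hα' : α ∈ (⊥ : AddSubgroup B) ⊔ AddSubgroup.closure (vals β ((⊥ : AddSubgroup M) ⊔
        AddSubgroup.closure (Set.range x))) := by
      rw [bot_sup_eq, bot_sup_eq]
      exact hα
    obtain ⟨C, h, γ, hh, hγ, rfl⟩ := form_of_mem β halt ⊥ ⊥ (by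
      intro a ha b hb
      rw [AddSubgroup.mem_bot] at ha hb ⊢
      rw [ha, hb, map_zero]) x α hα'
    obtain ⟨⟨a, ha⟩, _⟩ := hcw C
    rw [hsum] at ha
    obtain ⟨m, u, v, hm, hT'⟩ := degen β halt p hn x _ ha
    refine ⟨m, u, v, hm, ?_⟩
    rw [← hT', hT]
    have h1 : ∀ i, h i = 0 := fun i => AddSubgroup.mem_bot.1 (hh i)
    simp only [h1, map_zero, Finset.sum_const_zero, add_zero]
    rw [AddSubgroup.mem_bot.1 hγ, add_zero]
  · intro H V hHV α hα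
    obtain ⟨C, h, γ, hh, hγ, rfl⟩ := form_of_mem β halt H V hHV x α hα
    obtain ⟨_, a, ha⟩ := hcw C
    rw [hsum] at ha
    obtain ⟨u, v, γ', hγ', h2⟩ := unimod' β halt p (Fact.out : p.Prime).pos hn H V hHV x _ h hh γ
      hγ ha.isUnit
    rw [hT] at h2
    exact ⟨u, v, γ', hγ', h2⟩

end Pool.Agent.W422.PI
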