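import Pool.Agent.W422.PI.Stm

set_option autoImplicit false

/-! Project PI: alternating bilinear maps and sums of few symbols. -/

namespace Pool.Agent.W422.PI

open Matrix

variable {M B : Type*} [AddCommGroup M] [AddCommGroup B] (β : M →+ M →+ B)

/-- `∑ C i j β(x_i, y_j)` -/
def T {ι κ : Type*} [Fintype ι] [Fintype κ] (C : Matrix ι κ ℤ) (x : ι → M) (y : κ → M) : B :=
  ∑ i, ∑ j, C i j • β (x i) (y j)

section
variable {ι κ : Type*} [Fintype ι] [Fintype κ]

lemma T_add (C C' : Matrix ι κ ℤ) (x : ι → M) (y : κ → M) :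
    T β (C + C') x y = T β C x y + T β C' x y := by
  unfold T
  simp only [Matrix.add_apply, add_smul, Finset.sum_add_distrib]

lemma T_sub (C C' : Matrix ι κ ℤ) (x : ι → M) (y : κ → M) :
    T β (C - C') x y = T β C x y - T β C' x y := by
  unfold T
  simp only [Matrix.sub_apply, sub_smul, Finset.sum_sub_distrib]

lemma T_neg (C : Matrix ι κ ℤ) (x : ι → M) (y : κ → M) : T β (-C) x y = -T β C x y := by
  unfold T
  simp only [Matrix.neg_apply, neg_smul, Finset.sum_neg_distrib]

lemma T_zero (x : ι → M) (y : κ → M) : T β (0 : Matrix ι κ ℤ) x y = 0 := by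
  unfold T
  simp

/-- congruences modulo the exponent -/
lemma T_congr (n : ℕ) (hn : ∀ x y, (n : ℤ) • β x y = 0) (C C' : Matrix ι κ ℤ)
    (h : C.map (Int.castRingHom (ZMod n)) = C'.map (Int.castRingHom (ZMod n)))
    (x : ι → M) (y : κ → M) : T β C x y = T β C' x y := by
  unfold T
  refine Finset.sum_congr rfl fun i _ => Finset.sum_congr rfl fun j _ => ?_
  have h1 := congrFun (congrFun h i) j
  simp only [Matrix.map_apply, eq_intCast] at h1
  obtain ⟨c, hc⟩ := (ZMod.intCast_eq_intCast_iff_dvd_sub _ _ _).1 h1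
  have h2 : C' i j = C i j + c * n := by linarith
  rw [h2, add_smul, mul_smul, hn, smul_zero, add_zero]

lemma beta_anti (halt : ∀ x, β x x = 0) (x y : M) : β x y = -β y x := by
  have h := halt (x + y)
  simp only [map_add, AddMonoidHom.add_apply, halt, zero_add, add_zero] at h
  exact eq_neg_of_add_eq_zero_left (by rw [add_comm]; exact h)

/-- symmetric matrices give zero -/
lemma T_symm (halt : ∀ x, β x x = 0) (S : Matrix ι ι ℤ) (hS : Sᵀ = S) (x : ι → M) :
    T β S x x = 0 := by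
  classical
  unfold T
  rw [← Finset.sum_product']
  refine Finset.sum_involution (fun a _ => (a.2, a.1)) ?_ ?_ ?_ ?_
  · intro a _
    have h1 : S a.2 a.1 = S a.1 a.2 := by
      conv_rhs => rw [← hS]
      rfl
    show S a.1 a.2 • β (x a.1) (x a.2) + S a.2 a.1 • β (x a.2) (x a.1) = 0
    rw [h1, beta_anti β halt (x a.2) (x a.1), smul_neg, add_neg_cancel]
  · intro a _ h1 h2
    apply h1
    have h3 : a.2 = a.1 := congrArg Prod.fst h2
    rw [h3, halt, smul_zero]
  · intro a _
    exact Finset.mem_univ _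
  · intro a _
    rfl

/-- only `C - Cᵀ` modulo the exponent matters -/
lemma T_eq_of_alt (halt : ∀ x, β x x = 0) (n : ℕ) (hn : ∀ x y, (n : ℤ) • β x y = 0)
    (C C' : Matrix ι ι ℤ)
    (h : (C - Cᵀ).map (Int.castRingHom (ZMod n)) = (C' - C'ᵀ).map (Int.castRingHom (ZMod n)))
    (x : ι → M) : T β C x x = T β C' x x := by
  classical
  -- make the difference symmetric by changing it modulo `n` above the diagonal
  obtain ⟨e⟩ : Nonempty (ι ≃ Fin (Fintype.card ι)) := ⟨Fintype.equivFin ι⟩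
  set D : Matrix ι ι ℤ := C - C' with hD
  have hDs : ∀ i j, (D i j : ZMod n) = (D j i : ZMod n) := by
    intro i j
    have h1 := congrFun (congrFun h i) j
    simp only [Matrix.map_apply, Matrix.sub_apply, Matrix.transpose_apply, eq_intCast,
      Int.cast_sub] at h1
    rw [hD, Matrix.sub_apply, Matrix.sub_apply]
    push_cast
    linear_combination h1
  set S : Matrix ι ι ℤ := Matrix.of fun i j => if e i ≤ e j then D i j else D j i with hS
  have hSs : Sᵀ = S := by
    ext i j
    simp only [hS, Matrix.transpose_apply, Matrix.of_apply]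
    by_cases h1 : e i ≤ e j
    · by_cases h2 : e j ≤ e i
      · have : i = j := e.injective (le_antisymm h1 h2)
        rw [this]
      · rw [if_pos h1, if_neg h2]
    · have h2 : e j ≤ e i := le_of_not_ge h1
      rw [if_neg h1, if_pos h2]
  have h3 : T β D x x = T β S x x := by
    refine T_congr β n hn _ _ ?_ x x
    ext i j
    simp only [hS, Matrix.map_apply, Matrix.of_apply, eq_intCast]
    split_ifs with h1
    · rfl
    · exact hDs i j
  have h4 : T β C x x - T β C' x x = 0 := by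
    rw [← T_sub, ← hD, h3, T_symm β halt S hSs]
  exact sub_eq_zero.1 h4

lemma T_mul {κ' ι' : Type*} [Fintype κ'] [Fintype ι'] (P : Matrix ι κ ℤ) (D : Matrix κ κ' ℤ)
    (P' : Matrix ι' κ' ℤ) (x : ι → M) (y : ι' → M) :
    T β (P * D * P'ᵀ) x y = T β D (fun k => ∑ i, P i k • x i) (fun l => ∑ j, P' j l • y j) := by
  unfold T
  have h1 : ∀ k l, β (∑ i, P i k • x i) (∑ j, P' j l • y j) =
      ∑ i, ∑ j, (P i k * P' j l) • β (x i) (y j) := by
    intro k l
    have h0 : β (∑ i, P i k • x i) = ∑ i, P i k • β (x i) := by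
      rw [map_sum]
      exact Finset.sum_congr rfl fun i _ => map_zsmul _ _ _
    rw [h0, AddMonoidHom.finsetSum_apply]
    refine Finset.sum_congr rfl fun i _ => ?_
    rw [AddMonoidHom.smul_apply, map_sum, Finset.smul_sum]
    refine Finset.sum_congr rfl fun j _ => ?_
    rw [map_zsmul, smul_smul]
  simp only [h1, Finset.smul_sum, smul_smul]
  have h2 : ∀ i j, (P * D * P'ᵀ) i j • β (x i) (y j) =
      ∑ k, ∑ l, (D k l * (P i k * P' j l)) • β (x i) (y j) := by
    intro i j
    rw [← Finset.sum_comm, Matrix.mul_apply, Finset.sum_smul]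
    refine Finset.sum_congr rfl fun l _ => ?_
    rw [Matrix.mul_apply, Finset.sum_mul, Finset.sum_smul]
    refine Finset.sum_congr rfl fun k _ => ?_
    rw [Matrix.transpose_apply]
    congr 1
    ring
  simp only [h2]
  calc ∑ i, ∑ j, ∑ k, ∑ l, (D k l * (P i k * P' j l)) • β (x i) (y j)
      = ∑ i, ∑ k, ∑ j, ∑ l, (D k l * (P i k * P' j l)) • β (x i) (y j) :=
        Finset.sum_congr rfl fun i _ => Finset.sum_comm
    _ = ∑ k, ∑ i, ∑ j, ∑ l, (D k l * (P i k * P' j l)) • β (x i) (y j) := Finset.sum_comm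
    _ = ∑ k, ∑ i, ∑ l, ∑ j, (D k l * (P i k * P' j l)) • β (x i) (y j) :=
        Finset.sum_congr rfl fun k _ => Finset.sum_congr rfl fun i _ => Finset.sum_comm
    _ = ∑ k, ∑ l, ∑ i, ∑ j, (D k l * (P i k * P' j l)) • β (x i) (y j) :=
        Finset.sum_congr rfl fun k _ => Finset.sum_comm

end

/-- the matrix `D` with `D - Dᵀ = J` -/
def Dm (r : ℕ) : Matrix (Fin r ⊕ Fin r) (Fin r ⊕ Fin r) ℤ := fromBlocks 0 1 0 0

lemma T_Dm {r : ℕ} (y : Fin r ⊕ Fin r → M) :
    T β (Dm r) y y = ∑ k, β (y (Sum.inl k)) (y (Sum.inr k)) := by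
  classical
  unfold T Dm
  rw [Fintype.sum_sum_type]
  have h1 : ∀ i : Fin r, ∑ j, (fromBlocks 0 1 0 0 : Matrix (Fin r ⊕ Fin r) (Fin r ⊕ Fin r) ℤ)
      (Sum.inl i) j • β (y (Sum.inl i)) (y j) = β (y (Sum.inl i)) (y (Sum.inr i)) := by
    intro i
    rw [Fintype.sum_sum_type]
    simp only [fromBlocks_apply₁₁, fromBlocks_apply₁₂, Matrix.zero_apply, zero_smul,
      Finset.sum_const_zero, zero_add]
    rw [Finset.sum_eq_single i]
    · rw [Matrix.one_apply_eq, one_smul]
    · intro j _ hj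
      rw [Matrix.one_apply_ne hj.symm, zero_smul]
    · intro h
      exact absurd (Finset.mem_univ _) h
  have h2 : ∀ i : Fin r, ∑ j, (fromBlocks 0 1 0 0 : Matrix (Fin r ⊕ Fin r) (Fin r ⊕ Fin r) ℤ)
      (Sum.inr i) j • β (y (Sum.inr i)) (y j) = 0 := by
    intro i
    rw [Fintype.sum_sum_type]
    simp
  simp only [h1, h2, Finset.sum_const_zero, add_zero]

/-- a lift of a matrix to the integers -/
lemma exists_lift {ι κ : Type*} (n : ℕ) (Q : Matrix ι κ (ZMod n)) :
    ∃ P : Matrix ι κ ℤ, P.map (Int.castRingHom (ZMod n)) = Q := by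
  choose f hf using fun i j => ZMod.intCast_surjective (Q i j)
  refine ⟨Matrix.of f, ?_⟩
  ext i j
  simp [hf]

/-- **sums of symbols from the normal form** -/
theorem T_normal {ι : Type*} [Fintype ι] (halt : ∀ x, β x x = 0) (n : ℕ)
    (hn : ∀ x y, (n : ℤ) • β x y = 0) (C : Matrix ι ι ℤ) (r : ℕ) (P : Matrix ι (Fin r ⊕ Fin r) ℤ)
    (hP : (C - Cᵀ).map (Int.castRingHom (ZMod n)) = P.map (Int.castRingHom (ZMod n)) *
      Jm r (ZMod n) * (P.map (Int.castRingHom (ZMod n)))ᵀ) (x : ι → M) :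
    T β C x x = ∑ k, β (∑ i, P i (Sum.inl k) • x i) (∑ i, P i (Sum.inr k) • x i) := by
  classical
  have h1 : (C - Cᵀ).map (Int.castRingHom (ZMod n)) =
      (P * Dm r * Pᵀ - (P * Dm r * Pᵀ)ᵀ).map (Int.castRingHom (ZMod n)) := by
    have h2 : P * Dm r * Pᵀ - (P * Dm r * Pᵀ)ᵀ = P * (Dm r - (Dm r)ᵀ) * Pᵀ := by
      rw [Matrix.transpose_mul, Matrix.transpose_mul, Matrix.transpose_transpose,
        Matrix.mul_sub, Matrix.sub_mul, Matrix.mul_assoc P (Dm r)ᵀ]
    have h3 : Dm r - (Dm r)ᵀ = Jm r ℤ := by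
      unfold Dm Jm
      ext i j
      rcases i with i | i <;> rcases j with j | j <;> by_cases h : i = j <;>
        simp [h, Ne.symm]
    have h4 : (Jm r ℤ).map (Int.castRingHom (ZMod n)) = Jm r (ZMod n) := by
      unfold Jm
      ext i j
      rcases i with i | i <;> rcases j with j | j <;> by_cases h : i = j <;> simp [h]
    rw [hP, h2, h3, Matrix.map_mul, Matrix.map_mul, h4, Matrix.transpose_map]
  rw [T_eq_of_alt β halt n hn C _ h1 x, T_mul, T_Dm]

end Pool.Agent.W422.PI
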