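import Pool.Agent.W422.PI.Bil

set_option autoImplicit false

/-! Project PI: completing the squares. -/

namespace Pool.Agent.W422.PI

open Matrix

variable {M B : Type*} [AddCommGroup M] [AddCommGroup B] (β : M →+ M →+ B)

/-- the elements `∑ C i j β(x_i, x_j) + ∑ β(x_i, h_i) + γ` -/
def Form {ι : Type*} [Fintype ι] (H : AddSubgroup M) (V : AddSubgroup B) (x : ι → M) (α : B) : Prop :=
  ∃ (C : Matrix ι ι ℤ) (h : ι → M) (γ : B), (∀ i, h i ∈ H) ∧ γ ∈ V ∧
    α = T β C x x + ∑ i, β (x i) (h i) + γ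

/-- the values of `β` on a subgroup -/
def vals (G : AddSubgroup M) : Set B := {c | ∃ a ∈ G, ∃ b ∈ G, c = β a b}

lemma mem_sup_range {ι : Type*} [Fintype ι] (H : AddSubgroup M) (x : ι → M) (a : M)
    (ha : a ∈ H ⊔ AddSubgroup.closure (Set.range x)) :
    ∃ (c : ι → ℤ) (h : M), h ∈ H ∧ a = ∑ i, c i • x i + h := by
  obtain ⟨h, hh, z, hz, rfl⟩ := AddSubgroup.mem_sup.1 ha
  have h1 : ∃ c : ι → ℤ, z = ∑ i, c i • x i := by
    classical
    refine AddSubgroup.closure_induction (p := fun z _ => ∃ c : ι → ℤ, z = ∑ i, c i • x i)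
      ?_ ?_ ?_ ?_ hz
    · rintro _ ⟨i, rfl⟩
      refine ⟨Pi.single i 1, ?_⟩
      rw [Finset.sum_eq_single i]
      · simp
      · intro j _ hj
        simp [hj]
      · intro h
        exact absurd (Finset.mem_univ _) h
    · exact ⟨0, by simp⟩
    · rintro a b _ _ ⟨c, rfl⟩ ⟨d, rfl⟩
      exact ⟨c + d, by simp [add_smul, Finset.sum_add_distrib]⟩
    · rintro a _ ⟨c, rfl⟩
      exact ⟨-c, by simp⟩
  obtain ⟨c, hc⟩ := h1
  exact ⟨c, h, hh, by rw [hc, add_comm]⟩

lemma vals_form {ι : Type*} [Fintype ι] (halt : ∀ x, β x x = 0) (H : AddSubgroup M)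
    (V : AddSubgroup B) (hHV : ∀ a ∈ H, ∀ b ∈ H, β a b ∈ V) (x : ι → M) (α : B)
    (hα : α ∈ vals β (H ⊔ AddSubgroup.closure (Set.range x))) : Form β H V x α := by
  obtain ⟨a, ha, b, hb, rfl⟩ := hα
  obtain ⟨c, h, hh, rfl⟩ := mem_sup_range H x a ha
  obtain ⟨d, h', hh', rfl⟩ := mem_sup_range H x b hb
  refine ⟨Matrix.of fun i j => c i * d j, fun i => c i • h' - d i • h, β h h', fun i =>
    H.sub_mem (H.zsmul_mem hh' _) (H.zsmul_mem hh _), hHV h hh h' hh', ?_⟩
  have h1 : ∀ (c : ι → ℤ) (y : M), β (∑ i, c i • x i) y = ∑ i, c i • β (x i) y := by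
    intro c y
    rw [map_sum, AddMonoidHom.finsetSum_apply]
    exact Finset.sum_congr rfl fun i _ => by rw [map_zsmul, AddMonoidHom.smul_apply]
  have h2 : ∀ (c : ι → ℤ) (y : M), β y (∑ i, c i • x i) = ∑ i, c i • β y (x i) := by
    intro c y
    rw [map_sum]
    exact Finset.sum_congr rfl fun i _ => by rw [map_zsmul]
  have e1 : β (∑ i, c i • x i + h) = β (∑ i, c i • x i) + β h := map_add _ _ _
  rw [e1, AddMonoidHom.add_apply, map_add, map_add, h1 c, h1 c, h2 d h]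
  unfold T
  simp only [Matrix.of_apply]
  have h3 : ∑ i, c i • β (x i) (∑ j, d j • x j) = ∑ i, ∑ j, (c i * d j) • β (x i) (x j) := by
    refine Finset.sum_congr rfl fun i _ => ?_
    rw [h2, Finset.smul_sum]
    exact Finset.sum_congr rfl fun j _ => by rw [smul_smul]
  have h4 : ∑ i, d i • β h (x i) = -∑ i, d i • β (x i) h := by
    rw [← Finset.sum_neg_distrib]
    refine Finset.sum_congr rfl fun i _ => ?_
    rw [beta_anti β halt h, smul_neg]
  have h5 : ∑ i, β (x i) (c i • h' - d i • h) = ∑ i, c i • β (x i) h' - ∑ i, d i • β (x i) h := by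
    rw [← Finset.sum_sub_distrib]
    refine Finset.sum_congr rfl fun i _ => ?_
    rw [map_sub, map_zsmul, map_zsmul]
  rw [h3, h4, h5]
  abel

/-- every element of the big subgroup is of this form -/
lemma form_of_mem {ι : Type*} [Fintype ι] (halt : ∀ x, β x x = 0) (H : AddSubgroup M)
    (V : AddSubgroup B) (hHV : ∀ a ∈ H, ∀ b ∈ H, β a b ∈ V) (x : ι → M) (α : B)
    (hα : α ∈ V ⊔ AddSubgroup.closure (vals β (H ⊔ AddSubgroup.closure (Set.range x)))) :
    Form β H V x α := by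
  have hadd : ∀ α α', Form β H V x α → Form β H V x α' → Form β H V x (α + α') := by
    rintro _ _ ⟨C, h, γ, hh, hγ, rfl⟩ ⟨C', h', γ', hh', hγ', rfl⟩
    refine ⟨C + C', h + h', γ + γ', fun i => H.add_mem (hh i) (hh' i), V.add_mem hγ hγ', ?_⟩
    rw [T_add]
    simp only [Pi.add_apply, map_add, Finset.sum_add_distrib]
    abel
  have hneg : ∀ α, Form β H V x α → Form β H V x (-α) := by
    rintro _ ⟨C, h, γ, hh, hγ, rfl⟩
    refine ⟨-C, -h, -γ, fun i => H.neg_mem (hh i), V.neg_mem hγ, ?_⟩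
    rw [T_neg]
    simp only [Pi.neg_apply, map_neg, Finset.sum_neg_distrib]
    abel
  obtain ⟨v, hv, z, hz, rfl⟩ := AddSubgroup.mem_sup.1 hα
  have hv' : ∀ v ∈ V, Form β H V x v := by
    intro v hv
    exact ⟨0, 0, v, fun i => H.zero_mem, hv, by simp [T_zero]⟩
  refine hadd _ _ (hv' v hv) ?_
  refine AddSubgroup.closure_induction (p := fun z _ => Form β H V x z) ?_ ?_ ?_ ?_ hz
  · intro z hz
    exact vals_form β halt H V hHV x z hz
  · exact hv' 0 V.zero_mem
  · intro a b _ _ h h'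
    exact hadd _ _ h h'
  · intro a _ h
    exact hneg _ h

/-- **A unimodular form: `g` symbols modulo `V`.** -/
theorem unimod {g : ℕ} (halt : ∀ x, β x x = 0) (n : ℕ) (hn : ∀ x y, (n : ℤ) • β x y = 0)
    (H : AddSubgroup M) (V : AddSubgroup B) (hHV : ∀ a ∈ H, ∀ b ∈ H, β a b ∈ V)
    (x : Fin g ⊕ Fin g → M) (C : Matrix (Fin g ⊕ Fin g) (Fin g ⊕ Fin g) ℤ)
    (h : Fin g ⊕ Fin g → M) (hh : ∀ i, h i ∈ H) (γ : B) (hγ : γ ∈ V)
    (Q : Matrix (Fin g ⊕ Fin g) (Fin g ⊕ Fin g) (ZMod n)) (hQ : IsUnit Q.det)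
    (hA : (C - Cᵀ).map (Int.castRingHom (ZMod n)) = Q * Jm g (ZMod n) * Qᵀ) :
    ∃ (u v : Fin g → M) (γ' : B), γ' ∈ V ∧
      T β C x x + ∑ i, β (x i) (h i) + γ = ∑ k, β (u k) (v k) + γ' := by
  classical
  obtain ⟨P, rfl⟩ := exists_lift n Q
  obtain ⟨R, hR⟩ := exists_lift n (P.map (Int.castRingHom (ZMod n)))⁻¹
  set y : Fin g ⊕ Fin g → M := fun l => ∑ i, P i l • x i with hy
  -- the linear terms in the new basis
  set h' : Fin g ⊕ Fin g → M := fun l => ∑ i, R l i • h i with hh'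
  have hlin : ∑ i, β (x i) (h i) = ∑ l, β (y l) (h' l) := by
    have h1 : ∑ i, β (x i) (h i) = T β (1 : Matrix (Fin g ⊕ Fin g) (Fin g ⊕ Fin g) ℤ) x h := by
      unfold T
      refine Finset.sum_congr rfl fun i _ => ?_
      rw [Finset.sum_eq_single i]
      · rw [Matrix.one_apply_eq, one_smul]
      · intro j _ hj
        rw [Matrix.one_apply_ne hj.symm, zero_smul]
      · intro h
        exact absurd (Finset.mem_univ _) h
    have h2 : T β (1 : Matrix (Fin g ⊕ Fin g) (Fin g ⊕ Fin g) ℤ) x h =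
        T β (P * 1 * (Rᵀ)ᵀ) x h := by
      refine T_congr β n hn _ _ ?_ x h
      rw [Matrix.transpose_transpose, Matrix.mul_one, Matrix.map_mul, hR,
        Matrix.mul_nonsing_inv _ hQ]
      exact Matrix.map_one _ (map_zero _) (map_one _)
    rw [h1, h2, T_mul]
    unfold T
    refine Finset.sum_congr rfl fun l _ => ?_
    rw [Finset.sum_eq_single l]
    · rw [Matrix.one_apply_eq, one_smul]
      rfl
    · intro j _ hj
      rw [Matrix.one_apply_ne hj.symm, zero_smul]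
    · intro h
      exact absurd (Finset.mem_univ _) h
  have hh'H : ∀ l, h' l ∈ H := fun l => H.sum_mem fun i _ => H.zsmul_mem (hh i) _
  rw [T_normal β halt n hn C g P hA x, hlin, Fintype.sum_sum_type]
  refine ⟨fun k => y (Sum.inl k) - h' (Sum.inr k), fun k => y (Sum.inr k) + h' (Sum.inl k),
    (∑ k, β (h' (Sum.inr k)) (h' (Sum.inl k))) + γ,
    V.add_mem (V.sum_mem fun k _ => hHV _ (hh'H _) _ (hh'H _)) hγ, ?_⟩
  have h3 : ∀ k, β (y (Sum.inl k) - h' (Sum.inr k)) (y (Sum.inr k) + h' (Sum.inl k)) =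
      β (y (Sum.inl k)) (y (Sum.inr k)) + β (y (Sum.inl k)) (h' (Sum.inl k)) +
        β (y (Sum.inr k)) (h' (Sum.inr k)) - β (h' (Sum.inr k)) (h' (Sum.inl k)) := by
    intro k
    rw [map_sub, AddMonoidHom.sub_apply, map_add, map_add,
      beta_anti β halt (h' (Sum.inr k)) (y (Sum.inr k))]
    abel
  simp only [h3, Finset.sum_add_distrib, Finset.sum_sub_distrib]
  simp only [hy]
  abel

end Pool.Agent.W422.PI
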